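import Pool.Agent.W2helper57.LD.Stm

/-!
# Project LD, piece AMP
-/

set_option autoImplicit false

open Pool.Agent.N602.PC Pool.Agent.W2helper57.LD

namespace Pool.Agent.W2helper51.LD

variable {n : ℕ}

lemma wb_prod_sum (p : ℝ) : ∑ ω : Fin n → Bool, ∏ i, wb p (ω i) = 1 := by
  have h := (Finset.prod_univ_sum (fun _ : Fin n => (Finset.univ : Finset Bool))
    (fun _ b => wb p b)).symm
  rw [Fintype.piFinset_univ] at h
  rw [h]
  simp [wb]

lemma EV_const (p c : ℝ) : EV (n := n) p (fun _ => c) = c := by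
  unfold EV Ew
  rw [← Finset.sum_mul, wb_prod_sum, one_mul]

lemma EV_add (p : ℝ) (F G : (Fin n → Bool) → ℝ) :
    EV p (fun σ => F σ + G σ) = EV p F + EV p G := by
  unfold EV Ew
  rw [← Finset.sum_add_distrib]
  exact Finset.sum_congr rfl fun _ _ => by ring

lemma EV_mul (p c : ℝ) (F : (Fin n → Bool) → ℝ) : EV p (fun σ => c * F σ) = c * EV p F := by
  unfold EV Ew
  rw [Finset.mul_sum]
  exact Finset.sum_congr rfl fun _ _ => by ring

lemma EV_nonneg {p : ℝ} (h0 : 0 ≤ p) (h1 : p ≤ 1) {F : (Fin n → Bool) → ℝ} (h : ∀ σ, 0 ≤ F σ) :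
    0 ≤ EV p F := by
  unfold EV Ew
  refine Finset.sum_nonneg fun σ _ => mul_nonneg (Finset.prod_nonneg fun i _ => ?_) (h σ)
  change 0 ≤ wb p (σ i)
  unfold wb
  split_ifs <;> linarith

/-- the conditional expectation of a function of the graph -/
noncomputable def E1 (p : ℝ) (r : Fin n) (s : Bool) (F : Input n → ℝ) : ℝ :=
  EXs p r s fun _ Y => F Y

lemma E1_const (p : ℝ) (r : Fin n) (s : Bool) (c : ℝ) : E1 p r s (fun _ => c) = c := by
  unfold E1 EXs
  simp only [EQ_const, EV_const]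

lemma E1_add (p : ℝ) (r : Fin n) (s : Bool) (F G : Input n → ℝ) :
    E1 p r s (fun Y => F Y + G Y) = E1 p r s F + E1 p r s G := by
  unfold E1 EXs
  simp only [EQ_add, EV_add]

lemma E1_mul (p : ℝ) (r : Fin n) (s : Bool) (c : ℝ) (F : Input n → ℝ) :
    E1 p r s (fun Y => c * F Y) = c * E1 p r s F := by
  unfold E1 EXs
  simp only [EQ_const_mul, EV_mul]

lemma E1_nonneg {p : ℝ} (h0 : 0 ≤ p) (h1 : p ≤ 1) (r : Fin n) (s : Bool) {F : Input n → ℝ}
    (h : ∀ Y, 0 ≤ F Y) : 0 ≤ E1 p r s F :=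
  EV_nonneg h0 h1 fun _ => EQ_nonneg fun _ => h _

/-- expectation of a quadratic polynomial in `x` -/
lemma E1_lin (p : ℝ) (r : Fin n) (s : Bool) (X : Input n → ℝ) (c : ℝ) :
    E1 p r s (fun Y => 1 - X Y / c) = 1 - E1 p r s X / c := by
  have e : (fun Y => 1 - X Y / c) = fun Y => 1 + (-(1 / c)) * X Y := by funext Y; ring
  rw [e, E1_add, E1_const, E1_mul]
  ring

lemma E1_quad (p : ℝ) (r : Fin n) (s : Bool) (X : Input n → ℝ) (c : ℝ) :
    E1 p r s (fun Y => (1 - X Y / c) ^ 2) =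
      1 - 2 * (E1 p r s X / c) + E1 p r s (fun Y => X Y ^ 2) / c ^ 2 := by
  have e : (fun Y => (1 - X Y / c) ^ 2) =
      fun Y => 1 + ((-(2 / c)) * X Y + (1 / c ^ 2) * X Y ^ 2) := by
    funext Y
    by_cases hc : c = 0
    · subst hc; simp
    · field_simp; ring
  rw [e, E1_add, E1_const, E1_add, E1_mul, E1_mul]
  ring

theorem p_amp (hind : S_INDJ) : S_AMP := by
  intro n v N p M r U hU hp0 hp1 hM s
  obtain ⟨ind1, ind2⟩ := hind p r U hU s
  -- notation
  set X : Fin 3 → Fin 2 → Input n → ℝ := fun j l Y => H r (U j l) Y with hX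
  have hM0 : M ≠ 0 := hM.ne'
  -- the product over the two blocks of a group
  have hprod1 : ∀ j, E1 p r s (fun Y => ∏ l : Fin 2, (1 - X j l Y / M)) =
      ∏ l : Fin 2, (1 - E1 p r s (X j l) / M) := by
    intro j
    have h := ind2 j (fun _ x => 1 - x / M)
    refine h.trans (Finset.prod_congr rfl fun l _ => ?_)
    exact E1_lin p r s (X j l) M
  have hprod2 : ∀ j, E1 p r s (fun Y => (∏ l : Fin 2, (1 - X j l Y / M)) ^ 2) =
      ∏ l : Fin 2, (1 - 2 * (E1 p r s (X j l) / M) + E1 p r s (fun Y => X j l Y ^ 2) / M ^ 2) := by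
    intro j
    have h := ind2 j (fun _ x => (1 - x / M) ^ 2)
    have e : (fun Y => (∏ l : Fin 2, (1 - X j l Y / M)) ^ 2) =
        fun Y => ∏ l : Fin 2, (1 - X j l Y / M) ^ 2 := by
      funext Y; rw [Finset.prod_pow]
    rw [e]
    refine h.trans (Finset.prod_congr rfl fun l _ => ?_)
    exact E1_quad p r s (X j l) M
  have ha1 : ∀ j, E1 p r s (fun Y => 1 - ∏ l : Fin 2, (1 - X j l Y / M)) =
      1 - ∏ l : Fin 2, (1 - E1 p r s (X j l) / M) := by
    intro j
    have e : (fun Y => 1 - ∏ l : Fin 2, (1 - X j l Y / M)) =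
        fun Y => 1 + (-1) * ∏ l : Fin 2, (1 - X j l Y / M) := by funext Y; ring
    rw [e, E1_add, E1_const, E1_mul, hprod1]; ring
  have ha2 : ∀ j, E1 p r s (fun Y => (1 - ∏ l : Fin 2, (1 - X j l Y / M)) ^ 2) =
      1 - 2 * (∏ l : Fin 2, (1 - E1 p r s (X j l) / M)) +
        ∏ l : Fin 2, (1 - 2 * (E1 p r s (X j l) / M) +
          E1 p r s (fun Y => X j l Y ^ 2) / M ^ 2) := by
    intro j
    have e : (fun Y => (1 - ∏ l : Fin 2, (1 - X j l Y / M)) ^ 2) =
        fun Y => 1 + ((-2) * (∏ l : Fin 2, (1 - X j l Y / M)) +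
          (∏ l : Fin 2, (1 - X j l Y / M)) ^ 2) := by funext Y; ring
    rw [e, E1_add, E1_const, E1_add, E1_mul, hprod1, hprod2]; ring
  have hq1 : E1 p r s (qf M r U) =
      ∏ j : Fin 3, (1 - ∏ l : Fin 2, (1 - E1 p r s (X j l) / M)) := by
    have h := ind1 (fun _ x => 1 - ∏ l : Fin 2, (1 - x l / M))
    refine (show E1 p r s (qf M r U) = _ from h).trans (Finset.prod_congr rfl fun j _ => ?_)
    exact ha1 j
  have hq2 : E1 p r s (fun Y => qf M r U Y ^ 2) =
      ∏ j : Fin 3, E1 p r s (fun Y => (1 - ∏ l : Fin 2, (1 - X j l Y / M)) ^ 2) := by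
    have h := ind1 (fun _ x => (1 - ∏ l : Fin 2, (1 - x l / M)) ^ 2)
    have e : (fun Y => qf M r U Y ^ 2) =
        fun Y => ∏ j : Fin 3, (1 - ∏ l : Fin 2, (1 - X j l Y / M)) ^ 2 := by
      funext Y; unfold qf; rw [Finset.prod_pow]
    rw [e]
    exact h
  have hnn : ∀ j l, 0 ≤ 1 - 2 * (E1 p r s (X j l) / M) + E1 p r s (fun Y => X j l Y ^ 2) / M ^ 2 := by
    intro j l
    rw [← E1_quad]
    exact E1_nonneg hp0 hp1 r s fun Y => sq_nonneg _
  have hnn2 : ∀ j, 0 ≤ E1 p r s (fun Y => (1 - ∏ l : Fin 2, (1 - X j l Y / M)) ^ 2) :=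
    fun j => E1_nonneg hp0 hp1 r s fun Y => sq_nonneg _
  refine ⟨fun δ hm hs => ?_, fun η hm hs => ?_⟩
  · have hm' : ∀ j l, E1 p r s (X j l) = M := hm
    have hs' : ∀ j l, E1 p r s (fun Y => X j l Y ^ 2) / M ^ 2 ≤ 1 + δ := fun j l => by
      rw [div_le_iff₀ (by positivity)]; exact hs j l
    have ea : ∀ j, E1 p r s (fun Y => (1 - ∏ l : Fin 2, (1 - X j l Y / M)) ^ 2) ≤ 1 + δ ^ 2 := by
      intro j
      rw [ha2 j]
      simp only [Fin.prod_univ_two, hm', div_self hM0]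
      have n0 := hnn j 0
      have n1 := hnn j 1
      rw [hm', div_self hM0] at n0 n1
      have u0 := hs' j 0
      have u1 := hs' j 1
      have := mul_le_mul (show (1 : ℝ) - 2 * 1 + E1 p r s (fun Y => X j 0 Y ^ 2) / M ^ 2 ≤ δ by
        linarith) (show (1 : ℝ) - 2 * 1 + E1 p r s (fun Y => X j 1 Y ^ 2) / M ^ 2 ≤ δ by linarith)
        n1 (by linarith)
      nlinarith
    have eq : E1 p r s (fun Y => (qf M r U Y - 1) ^ 2) =
        E1 p r s (fun Y => qf M r U Y ^ 2) - 1 := by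
      have e : (fun Y => (qf M r U Y - 1) ^ 2) =
          fun Y => qf M r U Y ^ 2 + ((-2) * qf M r U Y + 1) := by funext Y; ring
      rw [e, E1_add, E1_add, E1_mul, E1_const]
      have : E1 p r s (fun Y => qf M r U Y) = 1 := by
        refine hq1.trans ?_
        simp [hm', div_self hM0]
      rw [this]; ring
    change E1 p r s (fun Y => (qf M r U Y - 1) ^ 2) ≤ _
    rw [eq, hq2]
    have h3 : ∏ j : Fin 3, E1 p r s (fun Y => (1 - ∏ l : Fin 2, (1 - X j l Y / M)) ^ 2) ≤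
        ∏ _j : Fin 3, (1 + δ ^ 2) := Finset.prod_le_prod (fun j _ => hnn2 j) (fun j _ => ea j)
    rw [Finset.prod_const, Finset.card_univ, Fintype.card_fin] at h3
    linarith
  · have hm' : ∀ j l, E1 p r s (X j l) = 0 := hm
    have hs' : ∀ j l, E1 p r s (fun Y => X j l Y ^ 2) / M ^ 2 ≤ η := fun j l => by
      rw [div_le_iff₀ (by positivity)]; exact hs j l
    have ea : ∀ j, E1 p r s (fun Y => (1 - ∏ l : Fin 2, (1 - X j l Y / M)) ^ 2) ≤
        (1 + η) ^ 2 - 1 := by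
      intro j
      rw [ha2 j]
      simp only [Fin.prod_univ_two, hm', zero_div, mul_zero, sub_zero]
      have n0 := hnn j 0
      have n1 := hnn j 1
      rw [hm', zero_div, mul_zero, sub_zero] at n0 n1
      have u0 := hs' j 0
      have u1 := hs' j 1
      have := mul_le_mul (show (1 : ℝ) + E1 p r s (fun Y => X j 0 Y ^ 2) / M ^ 2 ≤ 1 + η by
        linarith) (show (1 : ℝ) + E1 p r s (fun Y => X j 1 Y ^ 2) / M ^ 2 ≤ 1 + η by linarith)
        n1 (by linarith)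
      nlinarith
    change E1 p r s (fun Y => qf M r U Y ^ 2) ≤ _
    rw [hq2]
    have h3 : ∏ j : Fin 3, E1 p r s (fun Y => (1 - ∏ l : Fin 2, (1 - X j l Y / M)) ^ 2) ≤
        ∏ _j : Fin 3, ((1 + η) ^ 2 - 1) :=
      Finset.prod_le_prod (fun j _ => hnn2 j) (fun j _ => ea j)
    rwa [Finset.prod_const, Finset.card_univ, Fintype.card_fin] at h3

end Pool.Agent.W2helper51.LD
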