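import Pool.Agent.W2helper57.LD.Stm

/-!
# Project LD, piece RATIO
-/

set_option autoImplicit false

open Pool.Agent.W2helper57.LD

namespace Pool.Agent.W2helper51.LD

lemma key (v : ℕ) (x N t y : ℝ) (hx : 0 < x) (hN : 0 < N) (hy : 0 < y) (h : x = N * y) :
    x ^ 2 * (x ^ 2 + x) ^ v = (1 + 1 / x) ^ v * (x ^ (v + 1)) ^ 2 ∧
    x * (x ^ 2 + x + N * t) ^ v = (1 / x * (1 + 1 / x + t / (N * y ^ 2)) ^ v) * (x ^ (v + 1)) ^ 2 ∧
    N * (x + N * t) ^ v =
      (1 / (N * y ^ 2) * (1 / x + t / (N * y ^ 2)) ^ v) * (x ^ (v + 1)) ^ 2 := by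
  have hx0 : x ≠ 0 := hx.ne'
  have hN0 : N ≠ 0 := hN.ne'
  have hy0 : y ≠ 0 := hy.ne'
  have e1 : x ^ 2 + x = x ^ 2 * (1 + 1 / x) := by field_simp
  have e2 : x ^ 2 + x + N * t = x ^ 2 * (1 + 1 / x + t / (N * y ^ 2)) := by
    subst h; field_simp
  have e3 : x + N * t = x ^ 2 * (1 / x + t / (N * y ^ 2)) := by
    subst h; field_simp
  have e4 : (x ^ (v + 1)) ^ 2 = x ^ 2 * (x ^ 2) ^ v := by ring
  refine ⟨?_, ?_, ?_⟩
  · rw [e1, mul_pow, e4]; ring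
  · rw [e2, mul_pow, e4]
    have : 1 / x * (1 + 1 / x + t / (N * y ^ 2)) ^ v * (x ^ 2 * (x ^ 2) ^ v) =
        (1 / x * x ^ 2) * ((x ^ 2) ^ v * (1 + 1 / x + t / (N * y ^ 2)) ^ v) := by ring
    rw [this]
    have : 1 / x * x ^ 2 = x := by field_simp
    rw [this]
  · rw [e3, mul_pow, e4]
    have : 1 / (N * y ^ 2) * (1 / x + t / (N * y ^ 2)) ^ v * (x ^ 2 * (x ^ 2) ^ v) =
        (1 / (N * y ^ 2) * x ^ 2) * ((x ^ 2) ^ v * (1 / x + t / (N * y ^ 2)) ^ v) := by ring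
    rw [this]
    have : 1 / (N * y ^ 2) * x ^ 2 = N := by subst h; field_simp
    rw [this]

theorem p_ratio : S_RATIO := by
  intro v N p hp hp1 hN
  have hNr : (0 : ℝ) < (N : ℝ) := by exact_mod_cast hN
  have ht : 0 ≤ th v := by unfold th; positivity
  obtain ⟨k1, k2, k3⟩ := key v ((N : ℝ) * p) N (th v) p (by positivity) hNr hp rfl
  set x : ℝ := (N : ℝ) * p with hx
  have hx0 : 0 < x := by rw [hx]; positivity
  set c : ℝ := (4 : ℝ) ^ (v.choose 2) with hc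
  have hc0 : 0 < c := by rw [hc]; positivity
  have hM : (x ^ (v + 1) * 2 ^ (v.choose 2)) ^ 2 = (x ^ (v + 1)) ^ 2 * c := by
    have e : ((2 : ℝ) ^ (v.choose 2)) ^ 2 = 4 ^ (v.choose 2) := by
      rw [← pow_mul, mul_comm, pow_mul]; norm_num
    rw [mul_pow, e]
  have heta : eta v N p * (x ^ (v + 1)) ^ 2 =
      x * (x ^ 2 + x + N * th v) ^ v + N * (x + N * th v) ^ v := by
    rw [k2, k3]
    unfold eta
    rw [← hx]
    ring
  refine ⟨?_, ?_, ?_⟩
  · apply le_of_eq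
    rw [hM]
    have : 1 + dlt v N p = (1 + 1 / x) ^ v + eta v N p := by
      unfold dlt
      rw [← hx]; ring
    rw [this]
    have e : ((1 + 1 / x) ^ v + eta v N p) * ((x ^ (v + 1)) ^ 2 * c) =
        c * ((1 + 1 / x) ^ v * (x ^ (v + 1)) ^ 2 + eta v N p * (x ^ (v + 1)) ^ 2) := by ring
    rw [e, ← k1, heta]
    ring
  · apply le_of_eq
    rw [hM]
    have e : eta v N p * ((x ^ (v + 1)) ^ 2 * c) = c * (eta v N p * (x ^ (v + 1)) ^ 2) := by ring
    rw [e, heta]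
    ring
  · rw [hM]
    have e : eta v N p * ((x ^ (v + 1)) ^ 2 * c) = c * (eta v N p * (x ^ (v + 1)) ^ 2) := by ring
    rw [e, heta]
    apply mul_le_mul_of_nonneg_left _ hc0.le
    simp only [mul_zero, zero_mul, zero_add]
    have h1 : ((N : ℝ) * th v) ^ v ≤ (x + N * th v) ^ v :=
      pow_le_pow_left₀ (by positivity) (by linarith) _
    have h2 : 0 ≤ x * (x ^ 2 + x + N * th v) ^ v := by positivity
    have h3 := mul_le_mul_of_nonneg_left h1 hNr.le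
    linarith

end Pool.Agent.W2helper51.LD
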